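import Pool.Agent.H90.SY.Brick

set_option autoImplicit false

/-!
The same as `brick_cover` in Pool/Agent/H90/SY/Brick.lean, only with other constants: copy the proof
(the hypothesis `near` is used only with `l = 4 * R`, and `10 * (4 * R) + 26 * R + 18 ≤ 84 * R` for
`R ≥ 1`).
-/

namespace Pool.H90TC

open Pool.H90SY

universe u

variable {V : Type u}

theorem brick_cover2 (d : V → V → ℕ) (lev : V → ℕ) (f : V → ℤ)
    (hsymm : ∀ v w : V, d v w = d w v)
    (h1 : ∀ v w : V, (lev v : ℤ) - lev w ≤ d v w) (h2 : ∀ v w : V, f v - f w ≤ 2 * d v w)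
    (near : ∀ (m l R : ℕ) (a : ℤ) (v w : V), Win lev f m l a v →
      Relation.ReflTransGen (fun x y => d x y ≤ R ∧ Win lev f m l a y) v w →
      d v w ≤ 10 * l + 26 * R + 18) :
    ∀ R : ℕ, 1 ≤ R → CoverAt d 2 R (84 * R) := by
  intro R hR
  have hRz : (1 : ℤ) ≤ R := by exact_mod_cast hR
  -- same brick
  let lk : V → V → Prop := fun x y => d x y ≤ R ∧ rowI lev R x = rowI lev R y ∧
    colI lev f R x = colI lev f R y
  have lksymm : ∀ x y, lk x y → lk y x := by
    intro x y h
    exact ⟨by rw [hsymm]; exact h.1, h.2.1.symm, h.2.2.symm⟩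
  let comp : V → Set V := fun x => {y | Relation.ReflTransGen lk x y}
  have symm' : ∀ x y, Relation.ReflTransGen lk x y → Relation.ReflTransGen lk y x := by
    intro x y h
    induction h with
    | refl => exact Relation.ReflTransGen.refl
    | tail _ hyz ih => exact Relation.ReflTransGen.head (lksymm _ _ hyz) ih
  have inv : ∀ x y, Relation.ReflTransGen lk x y →
      rowI lev R x = rowI lev R y ∧ colI lev f R x = colI lev f R y := by
    intro x y h
    induction h with
    | refl => exact ⟨rfl, rfl⟩
    | tail _ hyz ih => exact ⟨ih.1.trans hyz.2.1, ih.2.trans hyz.2.2⟩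
  -- the window of a point
  have win : ∀ x y : V, rowI lev R x = rowI lev R y → colI lev f R x = colI lev f R y →
      Win lev f ((R : ℤ) * rowI lev R x).toNat (4 * R)
        (4 * (R : ℤ) * colI lev f R x + 2 * R * rowI lev R x) y := by
    intro x y hr hcl
    have b := row_bd lev R hR y
    have c := col_bd lev f R hR y
    rw [hr, hcl]
    have hpos : 0 ≤ (R : ℤ) * rowI lev R y := by
      apply mul_nonneg (by linarith)
      exact Int.ediv_nonneg (Int.natCast_nonneg _) (Int.natCast_nonneg _)
    have hn : (((R : ℤ) * rowI lev R y).toNat : ℤ) = (R : ℤ) * rowI lev R y :=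
      Int.toNat_of_nonneg hpos
    refine ⟨?_, ?_, ?_, ?_⟩
    · omega
    · omega
    · omega
    · push_cast
      omega
  have bound : ∀ x y, Relation.ReflTransGen lk x y → d x y ≤ 84 * R := by
    intro x y h
    have h3 := near ((R : ℤ) * rowI lev R x).toNat (4 * R) R
      (4 * (R : ℤ) * colI lev f R x + 2 * R * rowI lev R x) x y (win x x rfl rfl) (by
        induction h with
        | refl => exact Relation.ReflTransGen.refl
        | @tail z y hxz hzy ih =>
          have hi := inv x y (hxz.tail hzy)
          exact ih.tail ⟨hzy.1, win x y hi.1 hi.2⟩)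
    omega
  classical
  have cpos : ∀ v, 0 ≤ colr lev f R v ∧ colr lev f R v < 3 := by
    intro v
    unfold colr
    constructor
    · exact Int.emod_nonneg _ (by norm_num)
    · exact Int.emod_lt_of_pos _ (by norm_num)
  refine ⟨Set.range comp, fun U => if h : U.Nonempty then
    ⟨(colr lev f R h.some).toNat, by have := cpos h.some; omega⟩ else 0, ?_, ?_, ?_⟩
  · intro x
    exact ⟨comp x, ⟨x, rfl⟩, Relation.ReflTransGen.refl⟩
  · rintro U ⟨x, rfl⟩ y hy z hz
    exact bound y z ((symm' x y hy).trans hz)
  · rintro U ⟨x, rfl⟩ W ⟨y, rfl⟩ hne hcol a ha b hb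
    have nx : (comp x).Nonempty := ⟨x, Relation.ReflTransGen.refl⟩
    have ny : (comp y).Nonempty := ⟨y, Relation.ReflTransGen.refl⟩
    beta_reduce at hcol
    rw [dif_pos nx, dif_pos ny] at hcol
    have hcol' : (colr lev f R nx.some).toNat = (colr lev f R ny.some).toNat :=
      congrArg Fin.val hcol
    have p1 := cpos nx.some
    have p2 := cpos ny.some
    have e0 : colr lev f R nx.some = colr lev f R ny.some := by omega
    have cinv : ∀ x y, Relation.ReflTransGen lk x y → colr lev f R x = colr lev f R y := by
      intro x y h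
      have := inv x y h
      unfold colr
      rw [this.1, this.2]
    have e1 : colr lev f R a = colr lev f R b := by
      have t1 := cinv x a ha
      have t2 := cinv x nx.some nx.some_mem
      have t3 := cinv y b hb
      have t4 := cinv y ny.some ny.some_mem
      rw [← t1, t2, e0, ← t4, t3]
    by_contra hlt
    push Not at hlt
    have h5 := brick_sep d lev f hsymm h1 h2 R hR a b hlt e1
    have hab : lk a b := ⟨hlt, h5.1, h5.2⟩
    apply hne
    have hxy : Relation.ReflTransGen lk x y := (ha.tail hab).trans (symm' y b hb)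
    ext z
    constructor
    · intro hz
      exact (symm' x y hxy).trans hz
    · intro hz
      exact hxy.trans hz

end Pool.H90TC
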