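import Pool.Agent.H90.TC.FSKey
import Pool.Agent.H90.TC.Brick2
import Pool.Agent.H90.SY.Coarse

set_option autoImplicit false

/-!
From a front system to the cover. Compare Pool/Agent/H90/SY/Coarse.lean and the end of
Inst.lean; `exists_closer` and `fill` of Coarse.lean can be used as they are.

1. Distances. `d(pos s, pos (pj s)) ≤ 2` for `s = inl v` with `q v = inr e`, `≤ 1` for `inl v`
   otherwise, and `= 0` for `inr e`. Hence `d(pos s, pos (pj^[k] s)) ≤ k + 1` (prove by induction the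
   two statements: for `s = inl v` the bound is `k + 1`, for `s = inr e` it is `k`). Adjacent elements
   have `d(pos s, pos t) ≤ 1`. A descending walk `Dn` from `s` to `r` moves `pos` by at most
   `hg s - hg r`. So `light_wk` gives: if `s, t` are joined by `Wk a (a + h)` then
   `d(pos s, pos t) ≤ 4 h + 2`.
2. Lipschitz. For `w` a parent of `v`: `q_par`, `ht_inl`, `ht_inr`, `step` give
   `|ht v - ht w| ≤ 1`. For adjacent `v, w` of the same level: common parent `z` (`tc`), so
   `|ht v - ht w| ≤ 2`. Hence `ht v - ht w ≤ 2 d(v,w)`.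
3. Projections. `Pr n v = pj^[lev v - n] (inl v)`. For `w` a parent of `v`, `n ≤ lev w`: `Pr n v` and
   `Pr n w` are equal or adjacent (`iter_adj`). For adjacent `v, w` of the same level `> n`: both are
   equal or adjacent to `Pr n z`, where `z` is the common parent. Heights decrease by at most the
   number of steps and never increase.
4. `near`: fill the jumps of the chain by geodesics: levels in `[m - R, m + l + R]`, heights in
   `[a - 2R, a + l + 2R]`. Project to level `n = m - R - 1` (natural subtraction; if `m ≤ R` then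
   `n = 0` and a step between two vertices of level 0 does not occur). With `K = l + 2R + 1` all
   levels are at most `n + K`, the walk in level `n` has heights in
   `[a - 2R - 1 - K, a + l + 2R + 1]`, an interval of length `2l + 6R + 3`, so
   `d(v,w) ≤ 2 (l + R + 2) + 4 (2l + 6R + 3) + 2 = 10 l + 26 R + 18`. (For `v` in the window
   `lev v - n ≤ l + R + 1`.)
-/

namespace Pool.H90TC

open Pool.H90SY

universe u

variable {V : Type u} {G : SimpleGraph V} {x0 : V} {E : Type u} (S : FS G x0 E)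

private theorem FSC_pj (s : V ⊕ E) :
    (∀ v w, s = Sum.inl v → S.q v = Sum.inl w → G.dist v w ≤ 1) ∧
    (∀ v e, s = Sum.inl v → S.q v = Sum.inr e → G.dist v (S.up e) ≤ 2) := by
  refine ⟨fun v w _ h => ?_, fun v e _ h => ?_⟩
  · by_cases hv : v = x0
    · rw [hv, S.q_base] at h
      have e := Sum.inl.inj h
      rw [hv, ← e]
      simp
    · exact le_of_eq (SimpleGraph.dist_eq_one_iff_adj.mpr (S.q_v v w hv h).1)
  · obtain ⟨_, w, hw, hvw⟩ := S.q_e v e h
    have h1 := SimpleGraph.dist_eq_one_iff_adj.mpr hvw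
    have h2 := SimpleGraph.dist_eq_one_iff_adj.mpr (S.up_adj e w hw)
    have h3 := S.conn.dist_triangle (u := v) (v := w) (w := S.up e)
    omega

private theorem FSC_iter (k : ℕ) :
    (∀ v : V, G.dist v (S.pos (S.pj^[k] (Sum.inl v))) ≤ k + 1) ∧
    (∀ e : E, G.dist (S.up e) (S.pos (S.pj^[k] (Sum.inr e))) ≤ k) := by
  induction k with
  | zero =>
    refine ⟨fun v => ?_, fun e => ?_⟩
    · have h : S.pos (S.pj^[0] (Sum.inl v)) = v := rfl
      rw [h]
      simp
    · have h : S.pos (S.pj^[0] (Sum.inr e)) = S.up e := rfl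
      rw [h]
      simp
  | succ k ih =>
    obtain ⟨ih1, ih2⟩ := ih
    refine ⟨fun v => ?_, fun e => ?_⟩
    · rw [Function.iterate_succ_apply]
      have h0 : S.pj (Sum.inl v) = S.q v := rfl
      rw [h0]
      cases hq : S.q v with
      | inl w =>
        have h1 := (FSC_pj S (Sum.inl v)).1 v w rfl hq
        have h2 := ih1 w
        have h3 := S.conn.dist_triangle (u := v) (v := w)
          (w := S.pos (S.pj^[k] (Sum.inl w)))
        omega
      | inr e =>
        have h1 := (FSC_pj S (Sum.inl v)).2 v e rfl hq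
        have h2 := ih2 e
        have h3 := S.conn.dist_triangle (u := v) (v := S.up e)
          (w := S.pos (S.pj^[k] (Sum.inr e)))
        omega
    · rw [Function.iterate_succ_apply]
      exact ih1 (S.up e)

private theorem FSC_adj {s t : V ⊕ E} (h : S.gadj s t) : G.dist (S.pos s) (S.pos t) ≤ 1 := by
  cases s with
  | inl v =>
    cases t with
    | inl w => exact absurd h (fun h => h)
    | inr e =>
      have h1 : S.inc e v := h
      exact le_of_eq (SimpleGraph.dist_eq_one_iff_adj.mpr (S.up_adj e v h1))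
  | inr e =>
    cases t with
    | inl v =>
      have h1 : S.inc e v := h
      exact le_of_eq (SimpleGraph.dist_eq_one_iff_adj.mpr (S.up_adj e v h1).symm)
    | inr e' => exact absurd h (fun h => h)

private theorem FSC_dn {s t : V ⊕ E} (h : Dn S.sys s t) :
    (G.dist (S.pos s) (S.pos t) : ℤ) ≤ S.hg s - S.hg t := by
  induction h with
  | refl => simp
  | @tail y z hsy hyz ih =>
    have h1 : S.gadj y z := hyz.1
    have h2 : S.hg z = S.hg y - 1 := hyz.2
    have h3 := FSC_adj S h1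
    have h4 := S.conn.dist_triangle (u := S.pos s) (v := S.pos y) (w := S.pos z)
    omega

theorem FS.pos_iter (k : ℕ) (s : V ⊕ E) :
    G.dist (S.pos s) (S.pos (S.pj^[k] s)) ≤ k + 1 := by
  cases s with
  | inl v => exact (FSC_iter S k).1 v
  | inr e => exact ((FSC_iter S k).2 e).trans (Nat.le_succ k)

/-- the lightness theorem with distances -/
theorem FS.light_dist (h : ℕ) (a : ℤ) (s t : V ⊕ E) (hsa : a ≤ S.hg s) (hs : S.hg s ≤ a + h)
    (hw : Wk S.sys a (a + h) s t) : G.dist (S.pos s) (S.pos t) ≤ 4 * h + 2 := by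
  obtain ⟨j, hj, r, h1, h2, h3, h4⟩ := light_wk (S := S.sys) h a s t hsa hs hw
  have h5 := S.pos_iter j s
  have h6 := S.pos_iter j t
  have h7 := FSC_dn S h1
  have h8 := FSC_dn S h2
  have h3' : S.hg (S.pj^[j] s) - S.hg r ≤ h := h3
  have h4' : S.hg (S.pj^[j] t) - S.hg r ≤ h := h4
  have h7' : (G.dist (S.pos (S.pj^[j] s)) (S.pos r) : ℤ) ≤ S.hg (S.pj^[j] s) - S.hg r := h7
  have h8' : (G.dist (S.pos (S.pj^[j] t)) (S.pos r) : ℤ) ≤ S.hg (S.pj^[j] t) - S.hg r := h8
  have h9 := S.conn.dist_triangle (u := S.pos s) (v := S.pos (S.pj^[j] s)) (w := S.pos r)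
  have h10 := S.conn.dist_triangle (u := S.pos t) (v := S.pos (S.pj^[j] t)) (w := S.pos r)
  have h11 := S.conn.dist_triangle (u := S.pos s) (v := S.pos r) (w := S.pos t)
  rw [SimpleGraph.dist_comm (u := S.pos r) (v := S.pos t)] at h11
  omega

include S in
private theorem FSC_lev {v w : V} (h : G.Adj v w) : G.dist x0 v ≤ G.dist x0 w + 1 := by
  have h1 := S.conn.dist_triangle (u := x0) (v := w) (w := v)
  have h2 : G.dist w v = 1 := SimpleGraph.dist_eq_one_iff_adj.mpr h.symm
  omega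

private theorem FSC_ne {v w : V} (h : G.dist x0 w + 1 = G.dist x0 v) : v ≠ x0 := by
  rintro rfl
  rw [SimpleGraph.dist_self] at h
  omega

private theorem FSC_par {v w : V} (h : G.Adj v w) (hd : G.dist x0 w + 1 = G.dist x0 v) :
    S.ht v - S.ht w ≤ 1 ∧ S.ht w - S.ht v ≤ 1 := by
  rcases S.q_par v w h hd with h1 | ⟨e, h1, h2⟩
  · have h3 := S.ht_inl v w (FSC_ne hd) h1
    omega
  · have h3 := S.ht_inr v e h1
    have h4 := S.step e w h2
    omega

private theorem FSC_lip {v w : V} (h : G.Adj v w) : S.ht v - S.ht w ≤ 2 := by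
  have h1 := FSC_lev S h
  have h2 := FSC_lev S h.symm
  rcases lt_trichotomy (G.dist x0 v) (G.dist x0 w) with h3 | h3 | h3
  · have := (FSC_par S h.symm (by omega)).2
    omega
  · obtain ⟨z, hz1, hz2, hz3⟩ := S.tc v w h h3
    have h4 := FSC_par S hz1.symm hz3
    have h5 := FSC_par S hz2.symm (by omega)
    omega
  · have := (FSC_par S h (by omega)).1
    omega

private theorem FSC_lipn : ∀ (n : ℕ) (v w : V), G.dist v w = n →
    S.ht v - S.ht w ≤ 2 * (n : ℤ) := by
  intro n
  induction n with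
  | zero =>
    intro v w h
    have e : v = w := (S.conn.dist_eq_zero_iff).mp h
    rw [e]
    simp
  | succ n ih =>
    intro v w h
    have hne : w ≠ v := by
      rintro rfl
      simp at h
    obtain ⟨u, hu, hd⟩ := exists_closer S.conn v w hne
    have h1 := ih v u (by omega)
    have h2 := FSC_lip S hu.symm
    push_cast
    omega

theorem FS.lip (v w : V) : S.ht v - S.ht w ≤ 2 * (G.dist v w : ℤ) :=
  FSC_lipn S _ v w rfl

private theorem FSC_iter_adj (k : ℕ) : ∀ s t : V ⊕ E, (s = t ∨ S.gadj s t) →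
    S.pj^[k] s = S.pj^[k] t ∨ S.gadj (S.pj^[k] s) (S.pj^[k] t) := by
  induction k with
  | zero =>
    intro s t h
    exact h
  | succ k ih =>
    intro s t h
    rw [Function.iterate_succ_apply, Function.iterate_succ_apply]
    apply ih
    rcases h with h | h
    · left
      rw [h]
    · exact S.sys.weak h

private theorem FSC_iter_ht (k : ℕ) : ∀ s : V ⊕ E,
    S.hg s - k ≤ S.hg (S.pj^[k] s) ∧ S.hg (S.pj^[k] s) ≤ S.hg s := by
  induction k with
  | zero =>
    intro s
    simp
  | succ k ih =>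
    intro s
    rw [Function.iterate_succ_apply]
    have h1 := ih (S.pj s)
    have h2 : S.hg (S.pj s) = S.hg s ∨ S.hg (S.pj s) = S.hg s - 1 := by
      rcases S.sys.drop s with h | h
      · exact Or.inl h
      · exact Or.inr h.1
    push_cast
    omega

/-- projection of a vertex to level `n` -/
private noncomputable def FSC_Pr (n : ℕ) (v : V) : V ⊕ E := S.pj^[G.dist x0 v - n] (Sum.inl v)

private theorem FSC_pr_ht (n K : ℕ) (A B : ℤ) (v : V) (h2 : G.dist x0 v ≤ n + K)
    (h3 : A ≤ S.ht v) (h4 : S.ht v ≤ B) :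
    A - K ≤ S.hg (FSC_Pr S n v) ∧ S.hg (FSC_Pr S n v) ≤ B := by
  have h1 := FSC_iter_ht S (G.dist x0 v - n) (Sum.inl v)
  have h5 : S.hg (Sum.inl v) = S.ht v := rfl
  rw [h5] at h1
  unfold FSC_Pr
  omega

private theorem FSC_wk {a M : ℤ} {s t : V ⊕ E} (h : s = t ∨ S.gadj s t)
    (h1 : a ≤ S.hg t) (h2 : S.hg t ≤ M) : Wk S.sys a M s t := by
  rcases h with h | h
  · rw [h]
    exact Relation.ReflTransGen.refl
  · exact Relation.ReflTransGen.single ⟨h, h1, h2⟩

private theorem FSC_pr_par (n : ℕ) {v w : V} (h : G.Adj v w)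
    (hd : G.dist x0 w + 1 = G.dist x0 v) (hn : n ≤ G.dist x0 w) :
    FSC_Pr S n v = FSC_Pr S n w ∨ S.gadj (FSC_Pr S n v) (FSC_Pr S n w) := by
  have e : G.dist x0 v - n = (G.dist x0 w - n) + 1 := by omega
  unfold FSC_Pr
  rw [e, Function.iterate_succ_apply]
  apply FSC_iter_adj S
  have h0 : S.pj (Sum.inl v) = S.q v := rfl
  rw [h0]
  rcases S.q_par v w h hd with h1 | ⟨e, h1, h2⟩
  · exact Or.inl h1
  · right
    rw [h1]
    exact h2

private theorem FSC_symm {s t : V ⊕ E} (h : s = t ∨ S.gadj s t) : t = s ∨ S.gadj t s := by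
  rcases h with h | h
  · exact Or.inl h.symm
  · exact Or.inr (S.sys.symm h)

private theorem FSC_pr_adj (n K : ℕ) (A B : ℤ) (v w : V) (h : G.Adj v w)
    (hv1 : n = 0 ∨ n + 1 ≤ G.dist x0 v) (hw1 : n = 0 ∨ n + 1 ≤ G.dist x0 w)
    (hw2 : G.dist x0 w ≤ n + K) (hv3 : A ≤ S.ht v) (hv4 : S.ht v ≤ B)
    (hw3 : A ≤ S.ht w) (hw4 : S.ht w ≤ B) :
    Wk S.sys (A - 1 - K) (B + 1) (FSC_Pr S n v) (FSC_Pr S n w) := by
  have hwt := FSC_pr_ht S n K A B w hw2 hw3 hw4
  have h1 := FSC_lev S h
  have h2 := FSC_lev S h.symm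
  rcases lt_trichotomy (G.dist x0 v) (G.dist x0 w) with h3 | h3 | h3
  · have h4 := FSC_pr_par S n h.symm (by omega) (by omega)
    exact FSC_wk S (FSC_symm S h4) (by omega) (by omega)
  · obtain ⟨z, hz1, hz2, hz3⟩ := S.tc v w h h3
    have h4 := FSC_pr_par S n hz1.symm hz3 (by omega)
    have h5 := FSC_pr_par S n hz2.symm (by omega) (by omega)
    have h6 := FSC_par S hz1.symm hz3
    have hzt := FSC_pr_ht S n K (A - 1) (B + 1) z (by omega) (by omega) (by omega)
    exact (FSC_wk S h4 (by omega) (by omega)).trans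
      (FSC_wk S (FSC_symm S h5) (by omega) (by omega))
  · have h4 := FSC_pr_par S n h (by omega) (by omega)
    exact FSC_wk S h4 (by omega) (by omega)

private theorem FSC_chain (n K : ℕ) (A B : ℤ) (v w : V)
    (hv1 : n = 0 ∨ n + 1 ≤ G.dist x0 v) (hv2 : G.dist x0 v ≤ n + K)
    (hv3 : A ≤ S.ht v) (hv4 : S.ht v ≤ B)
    (h : Relation.ReflTransGen (fun x y => G.Adj x y ∧ (n = 0 ∨ n + 1 ≤ G.dist x0 y) ∧
      G.dist x0 y ≤ n + K ∧ A ≤ S.ht y ∧ S.ht y ≤ B) v w) :
    ((n = 0 ∨ n + 1 ≤ G.dist x0 w) ∧ G.dist x0 w ≤ n + K ∧ A ≤ S.ht w ∧ S.ht w ≤ B) ∧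
    Wk S.sys (A - 1 - K) (B + 1) (FSC_Pr S n v) (FSC_Pr S n w) := by
  induction h with
  | refl => exact ⟨⟨hv1, hv2, hv3, hv4⟩, Relation.ReflTransGen.refl⟩
  | @tail y z _ hyz ih =>
    obtain ⟨⟨a1, a2, a3, a4⟩, hw⟩ := ih
    obtain ⟨hadj, b1, b2, b3, b4⟩ := hyz
    exact ⟨⟨b1, b2, b3, b4⟩, hw.trans (FSC_pr_adj S n K A B y z hadj a1 b1 b2 a3 a4 b3 b4)⟩

theorem FS.near (m l R : ℕ) (a : ℤ) (v w : V) (hv : Win (G.dist x0) S.ht m l a v)
    (h : Relation.ReflTransGen (fun x y => G.dist x y ≤ R ∧ Win (G.dist x0) S.ht m l a y) v w) :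
    G.dist v w ≤ 10 * l + 26 * R + 18 := by
  obtain ⟨v1, v2, v3, v4⟩ := hv
  obtain ⟨n, hn⟩ : ∃ n, n = m - R - 1 := ⟨_, rfl⟩
  -- fill in
  have hfill : Relation.ReflTransGen (fun x y => G.Adj x y ∧ (n = 0 ∨ n + 1 ≤ G.dist x0 y) ∧
      G.dist x0 y ≤ n + (l + 2 * R + 1) ∧ a - 2 * R ≤ S.ht y ∧
      S.ht y ≤ a + l + 2 * R) v w ∧ Win (G.dist x0) S.ht m l a w := by
    induction h with
    | refl => exact ⟨Relation.ReflTransGen.refl, v1, v2, v3, v4⟩
    | @tail y z _ hyz ih =>
      obtain ⟨ih1, y1, y2, y3, y4⟩ := ih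
      obtain ⟨hd, z1, z2, z3, z4⟩ := hyz
      refine ⟨ih1.trans ?_, z1, z2, z3, z4⟩
      refine Relation.ReflTransGen.mono ?_ _ _ (fill S.conn _ y z rfl)
      intro p q hpq
      obtain ⟨hadj, hq⟩ := hpq
      have t1 := S.conn.dist_triangle (u := x0) (v := y) (w := q)
      have t2 := S.conn.dist_triangle (u := x0) (v := q) (w := y)
      rw [SimpleGraph.dist_comm (u := q) (v := y)] at t2
      have t3 := S.lip y q
      have t4 := S.lip q y
      rw [SimpleGraph.dist_comm (u := q) (v := y)] at t4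
      refine ⟨hadj, by omega, by omega, by omega, by omega⟩
  obtain ⟨hfill, w1, w2, w3, w4⟩ := hfill
  obtain ⟨_, hwk⟩ := FSC_chain S n (l + 2 * R + 1) (a - 2 * R) (a + l + 2 * R) v w
    (by omega) (by omega) (by omega) (by omega) hfill
  have hv5 := FSC_pr_ht S n (l + 2 * R + 1) (a - 2 * R) (a + l + 2 * R) v (by omega) (by omega)
    (by omega)
  push_cast at hwk hv5
  have e1 : a + l + 2 * R + 1 =
      (a - 2 * R - 1 - (l + 2 * R + 1)) + ((2 * l + 6 * R + 3 : ℕ) : ℤ) := by
    push_cast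
    ring
  rw [e1] at hwk
  have h9 := S.light_dist (2 * l + 6 * R + 3) (a - 2 * R - 1 - (l + 2 * R + 1)) _ _
    (by
      have := hv5.1
      omega)
    (by
      have := hv5.2
      push_cast
      omega) hwk
  have h10 := S.pos_iter (G.dist x0 v - n) (Sum.inl v)
  have h11 := S.pos_iter (G.dist x0 w - n) (Sum.inl w)
  have h12 := S.conn.dist_triangle (u := v) (v := S.pos (FSC_Pr S n v))
    (w := S.pos (FSC_Pr S n w))
  have h13 := S.conn.dist_triangle (u := v) (v := S.pos (FSC_Pr S n w)) (w := w)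
  have h14 : G.dist (S.pos (FSC_Pr S n w)) w = G.dist w (S.pos (FSC_Pr S n w)) :=
    SimpleGraph.dist_comm
  have h15 : G.dist v (S.pos (FSC_Pr S n v)) ≤ G.dist x0 v - n + 1 := h10
  have h16 : G.dist w (S.pos (FSC_Pr S n w)) ≤ G.dist x0 w - n + 1 := h11
  omega

include S in
theorem FS.cover : ∀ R : ℕ, 1 ≤ R → CoverAt G.dist 2 R (84 * R) := by
  apply brick_cover2 G.dist (G.dist x0) S.ht
  · intro v w
    exact SimpleGraph.dist_comm
  · intro v w
    have := S.conn.dist_triangle (u := x0) (v := w) (w := v)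
    rw [SimpleGraph.dist_comm (u := w) (v := v)] at this
    omega
  · intro v w
    exact S.lip v w
  · intro m l R a v w hv h
    exact S.near m l R a v w hv h

end Pool.H90TC
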