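import Pool.Agent.H90.SY.Light
import Pool.Agent.H90.SY.Defs

set_option autoImplicit false

/-!
Front systems. `V` is the vertex set of a graph `G` with base point `x0`, `E` is a type of front
edges. A front edge `e` has a level `lv e`, a set of incident vertices (`inc e v`), all of level
`lv e`, and a parent vertex `up e` one level lower. A vertex `v ≠ x0` has as parent either one
vertex (`q v = inl w`) or one front edge (`q v = inr e`).
-/

namespace Pool.H90TC

open Pool.H90SY

universe u

/-- A front system. -/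
structure FS {V : Type u} (G : SimpleGraph V) (x0 : V) (E : Type u) where
  conn : G.Connected
  lv : E → ℕ
  inc : E → V → Prop
  up : E → V
  q : V → V ⊕ E
  inc_lv : ∀ (e : E) (v : V), inc e v → G.dist x0 v = lv e
  up_lv : ∀ (e : E) (v : V), inc e v → G.dist x0 (up e) + 1 = lv e
  up_adj : ∀ (e : E) (v : V), inc e v → G.Adj v (up e)
  q_base : q x0 = Sum.inl x0
  q_v : ∀ v w : V, v ≠ x0 → q v = Sum.inl w → G.Adj v w ∧ G.dist x0 w + 1 = G.dist x0 v
  q_e : ∀ (v : V) (e : E), q v = Sum.inr e →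
    G.dist x0 v = lv e + 1 ∧ ∃ w : V, inc e w ∧ G.Adj v w
  q_par : ∀ v w : V, G.Adj v w → G.dist x0 w + 1 = G.dist x0 v →
    q v = Sum.inl w ∨ ∃ e : E, q v = Sum.inr e ∧ inc e w
  tc : ∀ v w : V, G.Adj v w → G.dist x0 v = G.dist x0 w →
    ∃ z : V, G.Adj z v ∧ G.Adj z w ∧ G.dist x0 z + 1 = G.dist x0 v
  w5 : ∀ (e : E) (v w : V) (e' e'' : E), inc e v → inc e w → v ≠ w → q v = Sum.inr e' →
    q w = Sum.inr e'' → up e' ≠ up e''

variable {V : Type u} {G : SimpleGraph V} {x0 : V} {E : Type u}

/-- the height function, by level -/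
def FS.F (S : FS G x0 E) : ℕ → V → ℤ
  | 0, _ => 0
  | 1, _ => 1
  | (n + 2), v =>
    match S.q v with
    | Sum.inl w => S.F (n + 1) w + 1
    | Sum.inr e => S.F n (S.up e)

/-- the height of a vertex -/
noncomputable def FS.ht (S : FS G x0 E) (v : V) : ℤ := S.F (G.dist x0 v) v

/-- the height of an element -/
noncomputable def FS.hg (S : FS G x0 E) : V ⊕ E → ℤ
  | Sum.inl v => S.ht v
  | Sum.inr e => S.ht (S.up e)

/-- the projection of an element -/
def FS.pj (S : FS G x0 E) : V ⊕ E → V ⊕ E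
  | Sum.inl v => S.q v
  | Sum.inr e => Sum.inl (S.up e)

/-- incidence of elements -/
def FS.gadj (S : FS G x0 E) : V ⊕ E → V ⊕ E → Prop
  | Sum.inl v, Sum.inr e => S.inc e v
  | Sum.inr e, Sum.inl v => S.inc e v
  | _, _ => False

/-- a vertex near an element -/
def FS.pos (S : FS G x0 E) : V ⊕ E → V
  | Sum.inl v => v
  | Sum.inr e => S.up e

end Pool.H90TC
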