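import Pool.Agent.H90.TC.FSDefs

set_option autoImplicit false

/-!
Front systems: the height function and the instance of `Sys`. Compare Pool/Agent/H90/SY/Layer.lean
and Inst.lean (the special case of K4-free bridged graphs; many proofs can be copied).

* `q_inc`: `up e` is a neighbour of `v` one level lower (`up_adj`, `up_lv`, `inc_lv`), use `q_par`.
* `ht_one` (level 1): `q_par` for the parent `x0`; the case `inr e` with `inc e x0` is impossible
  (`lv e = 0`, but `up_lv`).
* `ht_inl`: if `v` has level 1 then `w = x0`. If the level is `n + 2`, unfold `F`.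
* `ht_inr`: the level of `v` is `lv e + 1`, that of `up e` is `lv e - 1` (there is `w` with `inc e w`).
* `step`: strong induction on the level `lv e`. By `q_inc`: if `q v = inl (up e)` then `ht_inl`; if
  `q v = inr e'` with `inc e' (up e)` then `ht v = ht (up e')`, apply the induction hypothesis to
  `e'` and `up e`.
* `key`: strong induction on `lv e`. By `ht_inl` neither `q v` nor `q w` is `inl (up e)`; so
  `q v = inr e'`, `q w = inr e''` with `inc e' z`, `inc e'' z`, `z = up e`. By `w5`,
  `up e' ≠ up e''`. `ht (up e') = ht v = ht z - 1`, same for `e''`. `q_inc` for `(e', z)` and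
  `(e'', z)`: if `q z = inl _` then `up e' = up e''`, contradiction; so `q z = inr e1` with
  `inc e1 (up e')`, `inc e1 (up e'')`, `ht z = ht (up e1)`: induction hypothesis for `e1`.
* `drop` for `inl v`, `v ≠ x0`, `q v = inl w`: all `e` incident with `v` have `up e = w` by `q_inc`.
* `peak` for `inl v` with `e, e'`: if `q v = inl w` both have `up = w`. If `q v = inr e0`: `up e`,
  `up e'` are incident with `e0` and have height `ht (up e0) - 1`, so they are equal by `key`.
  For `inr e` with `v, v'`: `key`.
-/

namespace Pool.H90TC

open Pool.H90SY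

universe u

variable {V : Type u} {G : SimpleGraph V} {x0 : V} {E : Type u} (S : FS G x0 E)

theorem FS.q_inc (e : E) (v : V) (h : S.inc e v) :
    S.q v = Sum.inl (S.up e) ∨ ∃ e' : E, S.q v = Sum.inr e' ∧ S.inc e' (S.up e) := by
  refine S.q_par v (S.up e) (S.up_adj e v h) ?_
  rw [S.up_lv e v h, S.inc_lv e v h]

theorem FS.ne_base (e : E) (v : V) (h : S.inc e v) : v ≠ x0 := by
  rintro rfl
  have h1 := S.inc_lv e _ h
  have h2 := S.up_lv e _ h
  rw [SimpleGraph.dist_self] at h1
  omega

theorem FS.ht_base : S.ht x0 = 0 := by
  unfold FS.ht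
  rw [SimpleGraph.dist_self]
  rfl

theorem FS.ht_inl (v w : V) (hv : v ≠ x0) (h : S.q v = Sum.inl w) : S.ht v = S.ht w + 1 := by
  have h1 := (S.q_v v w hv h).2
  unfold FS.ht
  rcases hn : G.dist x0 v with _ | _ | n
  · omega
  · have h3 : G.dist x0 w = 0 := by omega
    rw [h3]
    rfl
  · have h3 : G.dist x0 w = n + 1 := by omega
    rw [h3]
    simp only [FS.F]
    rw [h]

theorem FS.ht_inr (v : V) (e : E) (h : S.q v = Sum.inr e) : S.ht v = S.ht (S.up e) := by
  obtain ⟨h1, w, h2, -⟩ := S.q_e v e h
  have h3 := S.up_lv e w h2
  unfold FS.ht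
  rcases hn : G.dist x0 v with _ | _ | n
  · omega
  · omega
  · have h4 : G.dist x0 (S.up e) = n := by omega
    rw [h4]
    simp only [FS.F]
    rw [h]

theorem FS.step (e : E) (v : V) (h : S.inc e v) :
    S.ht v = S.ht (S.up e) + 1 ∨ S.ht v = S.ht (S.up e) - 1 := by
  obtain ⟨n, hn⟩ : ∃ n, n = S.lv e := ⟨_, rfl⟩
  induction n using Nat.strong_induction_on generalizing e v with
  | _ n ih =>
    rcases S.q_inc e v h with h1 | ⟨e', h1, h2⟩
    · left
      exact S.ht_inl v _ (S.ne_base e v h) h1
    · have h3 := (S.q_e v e' h1).1
      have h4 := S.inc_lv e v h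
      have := ih (S.lv e') (by omega) e' (S.up e) h2 rfl
      rw [S.ht_inr v e' h1]
      omega

theorem FS.key (e : E) (v w : V) (hv : S.inc e v) (hw : S.inc e w) (hne : v ≠ w)
    (h1 : S.ht v = S.ht (S.up e) - 1) (h2 : S.ht w = S.ht (S.up e) - 1) : False := by
  obtain ⟨n, hn⟩ : ∃ n, n = S.lv e := ⟨_, rfl⟩
  induction n using Nat.strong_induction_on generalizing e v w with
  | _ n ih =>
    rcases S.q_inc e v hv with a1 | ⟨e', a1, a2⟩
    · have := S.ht_inl v _ (S.ne_base e v hv) a1
      omega
    rcases S.q_inc e w hw with b1 | ⟨e'', b1, b2⟩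
    · have := S.ht_inl w _ (S.ne_base e w hw) b1
      omega
    have c1 := S.w5 e v w e' e'' hv hw hne a1 b1
    have c2 := S.ht_inr v e' a1
    have c3 := S.ht_inr w e'' b1
    have hz := S.ne_base e' _ a2
    rcases S.q_inc e' _ a2 with d1 | ⟨e1, d1, d2⟩
    · rcases S.q_inc e'' _ b2 with f1 | ⟨e2, f1, f2⟩
      · rw [d1] at f1
        exact c1 (Sum.inl.inj f1)
      · rw [d1] at f1
        exact absurd f1 (by simp)
    · rcases S.q_inc e'' _ b2 with f1 | ⟨e2, f1, f2⟩
      · rw [d1] at f1
        exact absurd f1 (by simp)
      · have he : e1 = e2 := by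
          rw [d1] at f1
          exact Sum.inr.inj f1
        subst he
        have g1 := S.ht_inr _ e1 d1
        have g2 := S.q_e _ e1 d1
        have g3 := S.inc_lv e' _ a2
        have g4 := (S.q_e v e' a1).1
        have g5 := S.inc_lv e v hv
        exact ih (S.lv e1) (by omega) e1 (S.up e') (S.up e'') d2 f2 c1 (by omega) (by omega) rfl

/-- the abstract system -/
noncomputable def FS.sys : Sys (V ⊕ E) where
  adj := S.gadj
  pr := S.pj
  ht := S.hg
  symm := by
    rintro (s | s) (t | t) h
    · exact h
    · exact h
    · exact h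
    · exact h
  weak := by
    rintro (s | s) (t | t) h
    · exact h.elim
    · rcases S.q_inc t s h with h1 | ⟨e', h1, h2⟩
      · exact Or.inl h1
      · right
        change S.gadj (S.q s) (Sum.inl (S.up t))
        rw [h1]
        exact h2
    · rcases S.q_inc s t h with h1 | ⟨e', h1, h2⟩
      · exact Or.inl h1.symm
      · right
        change S.gadj (Sum.inl (S.up s)) (S.q t)
        rw [h1]
        exact h2
    · exact h.elim
  step := by
    rintro (s | s) (t | t) h
    · exact h.elim
    · have := S.step t s h
      change S.ht (S.up t) = S.ht s - 1 ∨ S.ht s = S.ht (S.up t) - 1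
      omega
    · have := S.step s t h
      change S.ht t = S.ht (S.up s) - 1 ∨ S.ht (S.up s) = S.ht t - 1
      omega
    · exact h.elim
  drop := by
    rintro (v | e)
    · by_cases hv : v = x0
      · left
        rw [hv]
        change S.hg (S.q x0) = S.ht x0
        rw [S.q_base]
        rfl
      · rcases hq : S.q v with w | e
        · right
          refine ⟨?_, ?_⟩
          · change S.hg (S.q v) = S.ht v - 1
            rw [hq]
            change S.ht w = S.ht v - 1
            rw [S.ht_inl v w hv hq]
            ring
          · rintro (t | t) ht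
            · exact ht.elim
            · have hup : S.up t = w := by
                rcases S.q_inc t v ht with h1 | ⟨e', h1, h2⟩
                · rw [hq] at h1
                  exact (Sum.inl.inj h1).symm
                · rw [hq] at h1
                  exact absurd h1 (by simp)
              refine ⟨?_, ?_⟩
              · change S.ht (S.up t) = S.ht v - 1
                rw [hup, S.ht_inl v w hv hq]
                ring
              · change Sum.inl (S.up t) = S.q v
                rw [hup, hq]
        · left
          change S.hg (S.q v) = S.ht v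
          rw [hq]
          exact (S.ht_inr v e hq).symm
    · left
      rfl
  peak := by
    rintro (v | e) (t | t) (t' | t') h h' hl hl'
    · exact h.elim
    · exact h.elim
    · exact h'.elim
    · have hl1 : S.ht (S.up t) = S.ht v - 1 := hl
      have hl2 : S.ht (S.up t') = S.ht v - 1 := hl'
      change (Sum.inl (S.up t) : V ⊕ E) = Sum.inl (S.up t')
      congr 1
      rcases S.q_inc t v h with h1 | ⟨e1, h1, h2⟩
      · rcases S.q_inc t' v h' with h3 | ⟨e2, h3, h4⟩
        · rw [h1] at h3
          exact Sum.inl.inj h3
        · rw [h1] at h3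
          exact absurd h3 (by simp)
      · rcases S.q_inc t' v h' with h3 | ⟨e2, h3, h4⟩
        · rw [h1] at h3
          exact absurd h3 (by simp)
        · have he : e1 = e2 := by
            rw [h1] at h3
            exact Sum.inr.inj h3
          subst he
          have hh := S.ht_inr v e1 h1
          by_contra hne
          exact S.key e1 _ _ h2 h4 hne (by omega) (by omega)
    · have hl1 : S.ht t = S.ht (S.up e) - 1 := hl
      have hl2 : S.ht t' = S.ht (S.up e) - 1 := hl'
      by_cases hne : t = t'
      · rw [hne]
      · exact (S.key e t t' h h' hne hl1 hl2).elim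
    · exact h'.elim
    · exact h.elim
    · exact h.elim

end Pool.H90TC
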