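import Pool.Agent.H90.TC.FSDefs
import Pool.Agent.H90.TC.L6.Defs

set_option autoImplicit false

/-!
Graphs with lines. A family of cliques `𝓛`, the lines, such that every edge lies in exactly one line,
a common neighbour of two points of a line lies on the line or is adjacent to all of it, and of the
four points of a `K4` at least three are on a line. (If all lines have two points this says that
there is no `K4`.) Together with `Lay6` (parents form a clique, adjacent vertices of the same level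
have a common parent) and `Loc6` this gives a front system whose front edges are the lines with all
points of the same level.

Proof. Levels are distances from `x0`; adjacent vertices have levels differing by at most one.

(i) `lev_line`: a line `ℓ` with two points `u ≠ v` of level `n` has no point `w` of level `n + 1`. By
`tc` there is a common parent `z` of `u, v`. By `common`, `z ∈ ℓ` or `z` is adjacent to all of `ℓ`; in
both cases `z` is adjacent to `w`, but their levels differ by two.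
(ii) `par_line`: if `v` has two different parents `u, w` and `ℓ` is the line through `u, w`, then the
parents of `v` are exactly the points of `ℓ` (so all points of `ℓ` have the same level). Let `n` be the
level of `u, w`. `v ∉ ℓ` by (i). By `common`, `v` is adjacent to all `t ∈ ℓ`, so `t` has level at least
`n`, and not `n + 1` by (i). If `s ∉ ℓ` were another parent, then `v, s, u, w` is a `K4` (`cl`), three
of them are on a line: `{s,u,w}`: `s ∈ ℓ` by `uniq`; `{v,u,w}`: `v ∈ ℓ`; `{v,s,u}`, `{v,s,w}`: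
excluded by (i).
(iii) `up_unique`: let all points of the line `ℓ` have level `n`, `u ≠ v` in `ℓ`, and let `z, z'` be
common parents of `u, v`. Then `z = z'`: otherwise they are adjacent (`cl`), `u, v, z, z'` is a `K4`,
three are on a line: `{u,v,z}`: `z ∈ ℓ` by `uniq`, wrong level; the same for `{u,v,z'}`; `{u,z,z'}`,
`{v,z,z'}`: excluded by (i).
(iv) `w5`: let `v ≠ w` be on the line `ℓ` of level `n + 1`, `z` the common parent, `e' ∋ z`, `e'' ∋ z` the
lines of the parents of `v` and of `w` (`par_line`), suppose that `up e' = up e'' = y` (level `n - 1`).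
Choose `x ∈ e'`, `x' ∈ e''` different from `z`. `x` is a parent of `v`, `x'` of `w`. By (iii) `x` is
not adjacent to `w`, `x'` is not adjacent to `v`, `x ≠ x'`. In the link of `z`: 5-cycle
`v, w, x', y, x`. By `c5` and the levels `x` is adjacent to `x'`. By `c4` for `v, w, x', x`: contradiction.

The front system: `E` is the type of pairs (line, number `n`) such that all points have level `n`.
`up e`: a common parent of two points of the line (`tc`); by `common` it is adjacent to all points.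
`q x0 = inl x0`; `q v = inr (line through two different parents, level of v minus 1)` if there are two
different parents, else `q v = inl (the parent)`.
-/

namespace Pool.H90TC

open Pool.H90SY

universe u

variable {V : Type u}

/-- A family of lines. -/
structure IsLines (G : SimpleGraph V) (𝓛 : Set (Set V)) : Prop where
  two : ∀ ℓ : Set V, ℓ ∈ 𝓛 → ∃ a b : V, a ∈ ℓ ∧ b ∈ ℓ ∧ a ≠ b
  clique : ∀ ℓ : Set V, ℓ ∈ 𝓛 → ∀ a b : V, a ∈ ℓ → b ∈ ℓ → a ≠ b → G.Adj a b
  ex : ∀ a b : V, G.Adj a b → ∃ ℓ : Set V, ℓ ∈ 𝓛 ∧ a ∈ ℓ ∧ b ∈ ℓ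
  uniq : ∀ ℓ ℓ' : Set V, ℓ ∈ 𝓛 → ℓ' ∈ 𝓛 → ∀ a b : V, a ≠ b → a ∈ ℓ → b ∈ ℓ → a ∈ ℓ' → b ∈ ℓ' →
    ℓ = ℓ'
  common : ∀ ℓ : Set V, ℓ ∈ 𝓛 → ∀ a b c : V, a ≠ b → a ∈ ℓ → b ∈ ℓ → G.Adj c a → G.Adj c b →
    c ∈ ℓ ∨ ∀ d : V, d ∈ ℓ → G.Adj c d
  k4 : ∀ a b c d : V, G.Adj a b → G.Adj a c → G.Adj a d → G.Adj b c → G.Adj b d → G.Adj c d →
    ∃ ℓ : Set V, ℓ ∈ 𝓛 ∧ ((a ∈ ℓ ∧ b ∈ ℓ ∧ c ∈ ℓ) ∨ (a ∈ ℓ ∧ b ∈ ℓ ∧ d ∈ ℓ) ∨
      (a ∈ ℓ ∧ c ∈ ℓ ∧ d ∈ ℓ) ∨ (b ∈ ℓ ∧ c ∈ ℓ ∧ d ∈ ℓ))

variable {G : SimpleGraph V} {𝓛 : Set (Set V)} {x0 : V}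

private theorem Lines_lev (hc : G.Connected) {a b : V} (h : G.Adj a b) :
    G.dist x0 a ≤ G.dist x0 b + 1 := by
  have h1 := hc.dist_triangle (u := x0) (v := b) (w := a)
  rw [SimpleGraph.dist_eq_one_iff_adj.mpr h.symm] at h1
  exact h1

private theorem Lines_par (hc : G.Connected) (v : V) (hv : v ≠ x0) :
    ∃ u, G.Adj v u ∧ G.dist x0 u + 1 = G.dist x0 v := by
  have h1 : 0 < G.dist x0 v := hc.pos_dist_of_ne (Ne.symm hv)
  obtain ⟨w, hw⟩ := hc.exists_walk_length_eq_dist v x0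
  cases w with
  | nil => exact absurd rfl hv
  | cons hadj p =>
    rename_i u
    refine ⟨u, hadj, ?_⟩
    rw [SimpleGraph.Walk.length_cons] at hw
    have h2 : G.dist u x0 ≤ p.length := SimpleGraph.dist_le p
    have h3 : G.dist v x0 ≤ 1 + G.dist u x0 := by
      have := hc.dist_triangle (u := v) (v := u) (w := x0)
      rw [SimpleGraph.dist_eq_one_iff_adj.mpr hadj] at this
      exact this
    rw [SimpleGraph.dist_comm (u := x0) (v := u), SimpleGraph.dist_comm (u := x0) (v := v)]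
    omega

theorem lev_line (hL : IsLines G 𝓛) (hG : Lay6 G x0) (ℓ : Set V) (hl : ℓ ∈ 𝓛) (u v w : V)
    (hu : u ∈ ℓ) (hv : v ∈ ℓ) (hw : w ∈ ℓ) (huv : u ≠ v) (h1 : G.dist x0 u = G.dist x0 v)
    (h2 : G.dist x0 w = G.dist x0 u + 1) : False := by
  obtain ⟨p, hpu, hpv, hp⟩ := hG.tc u v (hL.clique ℓ hl u v hu hv huv) h1
  have hpw : G.Adj p w := by
    rcases hL.common ℓ hl u v p huv hu hv hpu hpv with h | h
    · refine hL.clique ℓ hl p w h hw ?_
      rintro rfl
      omega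
    · exact h w hw
  have := Lines_lev (x0 := x0) hG.conn hpw.symm
  omega

theorem par_line (hL : IsLines G 𝓛) (hG : Lay6 G x0) (ℓ : Set V) (hl : ℓ ∈ 𝓛) (v u w : V)
    (hu : u ∈ ℓ) (hw : w ∈ ℓ) (huw : u ≠ w) (hvu : G.Adj v u) (hvw : G.Adj v w)
    (h1 : G.dist x0 u + 1 = G.dist x0 v) (h2 : G.dist x0 w + 1 = G.dist x0 v) (t : V) :
    t ∈ ℓ ↔ (G.Adj v t ∧ G.dist x0 t + 1 = G.dist x0 v) := by
  have huw' : G.dist x0 u = G.dist x0 w := by omega
  have hv : v ∉ ℓ := fun hv => lev_line hL hG ℓ hl u w v hu hw hv huw huw' (by omega)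
  have hall : ∀ d : V, d ∈ ℓ → G.Adj v d :=
    (hL.common ℓ hl u w v huw hu hw hvu hvw).resolve_left hv
  constructor
  · intro ht
    refine ⟨hall t ht, ?_⟩
    have a1 := Lines_lev (x0 := x0) hG.conn (hall t ht)
    by_cases htu : t = u
    · rw [htu]
      exact h1
    · have a2 := Lines_lev (x0 := x0) hG.conn (hL.clique ℓ hl t u ht hu htu)
      by_contra hne
      exact lev_line hL hG ℓ hl u w t hu hw ht huw huw' (by omega)
  · rintro ⟨ht1, ht2⟩
    by_contra ht
    have htu : t ≠ u := by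
      rintro rfl
      exact ht hu
    have htw : t ≠ w := by
      rintro rfl
      exact ht hw
    have htu' := hG.cl v t u ht1 hvu ht2 h1 htu
    have htw' := hG.cl v t w ht1 hvw ht2 h2 htw
    obtain ⟨ℓ', hl', hc⟩ := hL.k4 v t u w ht1 hvu hvw htu' htw' (hL.clique ℓ hl u w hu hw huw)
    rcases hc with ⟨b1, b2, b3⟩ | ⟨b1, b2, b3⟩ | ⟨b1, b2, b3⟩ | ⟨b1, b2, b3⟩
    · exact lev_line hL hG ℓ' hl' t u v b2 b3 b1 htu (by omega) (by omega)
    · exact lev_line hL hG ℓ' hl' t w v b2 b3 b1 htw (by omega) (by omega)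
    · exact lev_line hL hG ℓ' hl' u w v b2 b3 b1 huw (by omega) (by omega)
    · apply ht
      rw [hL.uniq ℓ ℓ' hl hl' u w huw hu hw b2 b3]
      exact b1

theorem up_unique (hL : IsLines G 𝓛) (hG : Lay6 G x0) (ℓ : Set V) (hl : ℓ ∈ 𝓛) (n : ℕ)
    (hn : ∀ t : V, t ∈ ℓ → G.dist x0 t = n) (u v z z' : V) (hu : u ∈ ℓ) (hv : v ∈ ℓ)
    (huv : u ≠ v) (h1 : G.Adj u z) (h2 : G.Adj v z) (h3 : G.Adj u z') (h4 : G.Adj v z')
    (h5 : G.dist x0 z + 1 = n) (h6 : G.dist x0 z' + 1 = n) : z = z' := by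
  by_contra hne
  have hun := hn u hu
  have hvn := hn v hv
  have hzz := hG.cl u z z' h1 h3 (by omega) (by omega) hne
  obtain ⟨ℓ', hl', hc⟩ := hL.k4 u v z z' (hL.clique ℓ hl u v hu hv huv) h1 h3 h2 h4 hzz
  rcases hc with ⟨b1, b2, b3⟩ | ⟨b1, b2, b3⟩ | ⟨b1, b2, b3⟩ | ⟨b1, b2, b3⟩
  · have h7 := hn z (by rw [hL.uniq ℓ ℓ' hl hl' u v huv hu hv b1 b2]; exact b3)
    omega
  · have h7 := hn z' (by rw [hL.uniq ℓ ℓ' hl hl' u v huv hu hv b1 b2]; exact b3)
    omega
  · exact lev_line hL hG ℓ' hl' z z' u b2 b3 b1 hne (by omega) (by omega)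
  · exact lev_line hL hG ℓ' hl' z z' v b2 b3 b1 hne (by omega) (by omega)

/-- the front edges: lines with all points of the same level -/
def LinE (G : SimpleGraph V) (𝓛 : Set (Set V)) (x0 : V) : Type u :=
  {p : Set V × ℕ // p.1 ∈ 𝓛 ∧ ∀ t : V, t ∈ p.1 → G.dist x0 t = p.2}

private theorem Lines_up (hL : IsLines G 𝓛) (hG : Lay6 G x0) (e : LinE G 𝓛 x0) :
    ∃ p : V, ∀ t : V, t ∈ e.1.1 → G.Adj t p ∧ G.dist x0 p + 1 = e.1.2 := by
  obtain ⟨⟨ℓ, n⟩, hl, hn⟩ := e
  obtain ⟨a, b, ha, hb, hab⟩ := hL.two ℓ hl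
  have ha' := hn a ha
  have hb' := hn b hb
  obtain ⟨p, hpa, hpb, hp⟩ := hG.tc a b (hL.clique ℓ hl a b ha hb hab) (by omega)
  refine ⟨p, fun t ht => ?_⟩
  have hpl : p ∉ ℓ := by
    intro h
    have := hn p h
    omega
  refine ⟨((hL.common ℓ hl a b p hab ha hb hpa hpb).resolve_left hpl t ht).symm, ?_⟩
  change G.dist x0 p + 1 = n
  change G.dist x0 a = n at ha'
  omega

private theorem Lines_q (hL : IsLines G 𝓛) (hG : Lay6 G x0) (v : V) :
    ∃ s : V ⊕ LinE G 𝓛 x0, (v = x0 → s = Sum.inl x0) ∧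
      (∀ w, v ≠ x0 → s = Sum.inl w → G.Adj v w ∧ G.dist x0 w + 1 = G.dist x0 v) ∧
      (∀ e : LinE G 𝓛 x0, s = Sum.inr e → G.dist x0 v = e.1.2 + 1 ∧
        ∀ t : V, t ∈ e.1.1 ↔ (G.Adj v t ∧ G.dist x0 t + 1 = G.dist x0 v)) ∧
      (∀ w, G.Adj v w → G.dist x0 w + 1 = G.dist x0 v →
        s = Sum.inl w ∨ ∃ e : LinE G 𝓛 x0, s = Sum.inr e ∧ w ∈ e.1.1) := by
  by_cases hv : v = x0
  · refine ⟨Sum.inl x0, fun _ => rfl, fun w h => absurd hv h, fun e h => (by cases h), ?_⟩
    intro w _ hw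
    rw [hv, SimpleGraph.dist_self] at hw
    omega
  · obtain ⟨u, hu, hu'⟩ := Lines_par hG.conn v hv
    by_cases hex : ∃ w, G.Adj v w ∧ G.dist x0 w + 1 = G.dist x0 v ∧ w ≠ u
    · obtain ⟨w, hw, hw', hwu⟩ := hex
      have hadj := hG.cl v u w hu hw hu' hw' (Ne.symm hwu)
      obtain ⟨ℓ, hl, hul, hwl⟩ := hL.ex u w hadj
      have hpl := par_line hL hG ℓ hl v u w hul hwl (Ne.symm hwu) hu hw hu' hw'
      have hlev : ∀ t : V, t ∈ ℓ → G.dist x0 t = G.dist x0 u := by
        intro t ht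
        have := ((hpl t).1 ht).2
        omega
      refine ⟨Sum.inr ⟨(ℓ, G.dist x0 u), hl, hlev⟩, fun h => absurd h hv,
        fun w _ h => (by cases h), ?_, ?_⟩
      · intro e he
        have he' : (⟨(ℓ, G.dist x0 u), hl, hlev⟩ : LinE G 𝓛 x0) = e := Sum.inr_injective he
        subst he'
        refine ⟨hu'.symm, hpl⟩
      · intro t ht ht'
        exact Or.inr ⟨_, rfl, (hpl t).2 ⟨ht, ht'⟩⟩
    · refine ⟨Sum.inl u, fun h => absurd h hv, ?_, fun e h => (by cases h), ?_⟩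
      · intro w _ h
        have h' : u = w := Sum.inl_injective h
        subst h'
        exact ⟨hu, hu'⟩
      · intro w hw hw'
        left
        by_contra hne
        exact hex ⟨w, hw, hw', fun h => hne (by rw [h])⟩

theorem fs_of_lines (hL : IsLines G 𝓛) (hG : Lay6 G x0) (hloc : Loc6 G) :
    Nonempty (FS G x0 (LinE G 𝓛 x0)) := by
  choose up hup using Lines_up hL hG
  choose q hq1 hq2 hq3 hq4 using Lines_q hL hG
  refine ⟨{ conn := hG.conn, lv := fun e => e.1.2, inc := fun e v => v ∈ e.1.1, up := up, q := q,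
            inc_lv := fun e v h => e.2.2 v h, up_lv := fun e v h => (hup e v h).2,
            up_adj := fun e v h => (hup e v h).1, q_base := hq1 x0 rfl,
            q_v := fun v w hv h => hq2 v w hv h, q_e := ?_, q_par := hq4, tc := hG.tc,
            w5 := ?_ }⟩
  · intro v e h
    obtain ⟨h1, h2⟩ := hq3 v e h
    refine ⟨h1, ?_⟩
    obtain ⟨a, b, ha, hb, hab⟩ := hL.two e.1.1 e.2.1
    exact ⟨a, ha, ((h2 a).1 ha).1⟩
  · intro e v w e' e'' hv hw hvw hqv hqw hy
    obtain ⟨-, hv'⟩ := hq3 v e' hqv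
    obtain ⟨-, hw'⟩ := hq3 w e'' hqw
    have lv := e.2.2 v hv
    have lw := e.2.2 w hw
    have hadj := hL.clique e.1.1 e.2.1 v w hv hw hvw
    obtain ⟨z, hzv, hzw, hz⟩ := hG.tc v w hadj (by omega)
    have hz' : z ∈ e'.1.1 := (hv' z).2 ⟨hzv.symm, hz⟩
    have hz'' : z ∈ e''.1.1 := (hw' z).2 ⟨hzw.symm, by omega⟩
    obtain ⟨x, hx, hxz⟩ : ∃ x, x ∈ e'.1.1 ∧ x ≠ z := by
      obtain ⟨a, b, ha, hb, hab⟩ := hL.two e'.1.1 e'.2.1
      by_cases h : a = z
      · exact ⟨b, hb, fun h' => hab (h.trans h'.symm)⟩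
      · exact ⟨a, ha, h⟩
    obtain ⟨x', hx', hxz'⟩ : ∃ x, x ∈ e''.1.1 ∧ x ≠ z := by
      obtain ⟨a, b, ha, hb, hab⟩ := hL.two e''.1.1 e''.2.1
      by_cases h : a = z
      · exact ⟨b, hb, fun h' => hab (h.trans h'.symm)⟩
      · exact ⟨a, ha, h⟩
    obtain ⟨vx, lx⟩ := (hv' x).1 hx
    obtain ⟨wx', lx'⟩ := (hw' x').1 hx'
    have nwx : ¬ G.Adj w x := by
      intro h
      exact hxz (up_unique hL hG e.1.1 e.2.1 e.1.2 (fun t ht => e.2.2 t ht) v w x z hv hw hvw
        vx h hzv.symm hzw.symm (by omega) (by omega))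
    have nvx' : ¬ G.Adj v x' := by
      intro h
      exact hxz' (up_unique hL hG e.1.1 e.2.1 e.1.2 (fun t ht => e.2.2 t ht) v w x' z hv hw hvw
        h wx' hzv.symm hzw.symm (by omega) (by omega))
    have hxx' : x' ≠ x := by
      rintro rfl
      exact nvx' vx
    have hzx : G.Adj z x := hL.clique e'.1.1 e'.2.1 z x hz' hx (Ne.symm hxz)
    have hzx' : G.Adj z x' := hL.clique e''.1.1 e''.2.1 z x' hz'' hx' (Ne.symm hxz')
    have hzy := (hup e' z hz').1
    have hxy := (hup e' x hx).1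
    have hxy' := (hup e'' x' hx').1
    rw [← hy] at hxy'
    have ly := (hup e' z hz').2
    have lz := e'.2.2 z hz'
    have hvx' : v ≠ x' := by
      rintro rfl
      omega
    have hwx : w ≠ x := by
      rintro rfl
      omega
    have hvy : v ≠ up e' := by
      intro h
      rw [← h] at ly
      omega
    have hwy : w ≠ up e' := by
      intro h
      rw [← h] at ly
      omega
    have h5 := hloc.c5 z v w x' (up e') x hzv hzw hzx' hzy hzx hadj wx' hxy' hxy.symm vx.symm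
      hvx' hvy hwy hwx hxx'
    have hfin : G.Adj x' x := by
      rcases h5 with h | h | h | h | h
      · exact absurd h nvx'
      · have := Lines_lev (x0 := x0) hG.conn h
        omega
      · have := Lines_lev (x0 := x0) hG.conn h
        omega
      · exact absurd h nwx
      · exact h
    rcases hloc.c4 z v w x' x hzv hzw hzx' hzx hadj wx' hfin vx.symm hvx' hwx with h | h
    · exact nvx' h
    · exact nwx h

end Pool.H90TC
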