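import Pool.Agent.H90.TC.L6.Defs

set_option autoImplicit false

/-!
Three-coloured triangle complexes and short cycles in the links.
-/

namespace Pool.H90TC

open Pool.H90SY

universe u

variable {V : Type u}

/-- A properly 3-coloured graph all of whose edges lie in triangles. The complex is its flag
complex. -/
structure Tri (G : SimpleGraph V) (col : V → Fin 3) : Prop where
  proper : ∀ u v : V, G.Adj u v → col u ≠ col v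
  pure : ∀ u v : V, G.Adj u v → ∃ w : V, G.Adj u w ∧ G.Adj v w

/-- the link of `z` has no 4-cycle -/
def NC4 (G : SimpleGraph V) (z : V) : Prop :=
  ∀ b1 b2 c1 c2 : V, G.Adj z b1 → G.Adj z b2 → G.Adj z c1 → G.Adj z c2 →
    G.Adj b1 c1 → G.Adj c1 b2 → G.Adj b2 c2 → G.Adj c2 b1 → b1 ≠ b2 → c1 ≠ c2 → False

/-- the link of `z` has no 6-cycle -/
def NC6 (G : SimpleGraph V) (z : V) : Prop :=
  ∀ b1 b2 b3 c1 c2 c3 : V, G.Adj z b1 → G.Adj z b2 → G.Adj z b3 →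
    G.Adj z c1 → G.Adj z c2 → G.Adj z c3 →
    G.Adj b1 c1 → G.Adj c1 b2 → G.Adj b2 c2 → G.Adj c2 b3 → G.Adj b3 c3 → G.Adj c3 b1 →
    b1 ≠ b2 → b1 ≠ b3 → b2 ≠ b3 → c1 ≠ c2 → c1 ≠ c3 → c2 ≠ c3 → False

/-- the link of `z` has no 8-cycle -/
def NC8 (G : SimpleGraph V) (z : V) : Prop :=
  ∀ b1 b2 b3 b4 c1 c2 c3 c4 : V, G.Adj z b1 → G.Adj z b2 → G.Adj z b3 → G.Adj z b4 →
    G.Adj z c1 → G.Adj z c2 → G.Adj z c3 → G.Adj z c4 →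
    G.Adj b1 c1 → G.Adj c1 b2 → G.Adj b2 c2 → G.Adj c2 b3 → G.Adj b3 c3 → G.Adj c3 b4 →
    G.Adj b4 c4 → G.Adj c4 b1 →
    b1 ≠ b2 → b1 ≠ b3 → b1 ≠ b4 → b2 ≠ b3 → b2 ≠ b4 → b3 ≠ b4 →
    c1 ≠ c2 → c1 ≠ c3 → c1 ≠ c4 → c2 ≠ c3 → c2 ≠ c4 → c3 ≠ c4 → False

/-- the link of `z` has no 10-cycle -/
def NC10 (G : SimpleGraph V) (z : V) : Prop :=
  ∀ b1 b2 b3 b4 b5 c1 c2 c3 c4 c5 : V,
    G.Adj z b1 → G.Adj z b2 → G.Adj z b3 → G.Adj z b4 → G.Adj z b5 →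
    G.Adj z c1 → G.Adj z c2 → G.Adj z c3 → G.Adj z c4 → G.Adj z c5 →
    G.Adj b1 c1 → G.Adj c1 b2 → G.Adj b2 c2 → G.Adj c2 b3 → G.Adj b3 c3 → G.Adj c3 b4 →
    G.Adj b4 c4 → G.Adj c4 b5 → G.Adj b5 c5 → G.Adj c5 b1 →
    b1 ≠ b2 → b1 ≠ b3 → b1 ≠ b4 → b1 ≠ b5 → b2 ≠ b3 → b2 ≠ b4 → b2 ≠ b5 → b3 ≠ b4 →
    b3 ≠ b5 → b4 ≠ b5 →
    c1 ≠ c2 → c1 ≠ c3 → c1 ≠ c4 → c1 ≠ c5 → c2 ≠ c3 → c2 ≠ c4 → c2 ≠ c5 → c3 ≠ c4 →
    c3 ≠ c5 → c4 ≠ c5 → False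

/-- the local conditions of type (2,3,6): girth of the links at least 12 for colour 0, at least 6
for colour 2 (and 4 for colour 1) -/
structure HexLoc (G : SimpleGraph V) (col : V → Fin 3) : Prop where
  a4 : ∀ z : V, col z = 0 → NC4 G z
  a6 : ∀ z : V, col z = 0 → NC6 G z
  a8 : ∀ z : V, col z = 0 → NC8 G z
  a10 : ∀ z : V, col z = 0 → NC10 G z
  c4 : ∀ z : V, col z = 2 → NC4 G z

/-- the local conditions of type (2,4,4): girth of the links at least 8 for colours 0 and 2 (and 4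
for colour 1) -/
structure SqLoc (G : SimpleGraph V) (col : V → Fin 3) : Prop where
  a4 : ∀ z : V, col z = 0 → NC4 G z
  a6 : ∀ z : V, col z = 0 → NC6 G z
  c4 : ∀ z : V, col z = 2 → NC4 G z
  c6 : ∀ z : V, col z = 2 → NC6 G z

end Pool.H90TC
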